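import Pool.Agent.H752.GM.Stubs
import Pool.Agent.H620R2.GaugeR.R6

/-!
# `AM` has nondeterministic circuits (task C1)
-/

namespace Pool.Agent.H752.GM

open Pool.Agent.NPC Pool.Agent.H620R2.Gauge Finset Pool.Agent.H676 Pool.Agent.H622R2

namespace C1

/-- the exponential moment -/
theorem moment {Ω : Type*} [Fintype Ω] [DecidableEq Ω] (B : Finset Ω) (K : ℕ) :
    ∑ g : Fin K → Ω, 2 ^ (univ.filter (fun i => g i ∈ B)).card = (Fintype.card Ω + B.card) ^ K := by
  have h1 : ∀ g : Fin K → Ω, 2 ^ (univ.filter (fun i => g i ∈ B)).card =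
      ∏ i, (if g i ∈ B then 2 else 1 : ℕ) := by
    intro g
    rw [Finset.prod_ite, Finset.prod_const, Finset.prod_const_one, mul_one]
  rw [Finset.sum_congr rfl fun g _ => h1 g,
    ← Fintype.sum_pow (fun ω : Ω => (if ω ∈ B then 2 else 1 : ℕ)) K]
  congr 1
  have h2 : ∀ ω : Ω, (if ω ∈ B then 2 else 1 : ℕ) = 1 + if ω ∈ B then 1 else 0 := by
    intro ω
    split_ifs <;> rfl
  rw [Finset.sum_congr rfl fun ω _ => h2 ω, Finset.sum_add_distrib]
  simp

/-- few tuples meet a small set often -/
theorem few {Ω : Type*} [Fintype Ω] [DecidableEq Ω] (B : Finset Ω) (u : ℕ)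
    (hB : 3 * B.card ≤ Fintype.card Ω) :
    9 ^ u * (univ.filter (fun g : Fin (2 * u) → Ω =>
      u ≤ (univ.filter (fun i => g i ∈ B)).card)).card ≤ 8 ^ u * Fintype.card Ω ^ (2 * u) := by
  set F : Finset (Fin (2 * u) → Ω) := univ.filter (fun g : Fin (2 * u) → Ω =>
      u ≤ (univ.filter (fun i => g i ∈ B)).card) with hF
  have h1 : 2 ^ u * F.card ≤ (Fintype.card Ω + B.card) ^ (2 * u) := by
    rw [← moment B (2 * u)]
    calc 2 ^ u * F.card = ∑ _g ∈ F, 2 ^ u := by simp [mul_comm]
      _ ≤ ∑ g ∈ F, 2 ^ (univ.filter (fun i => g i ∈ B)).card :=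
          Finset.sum_le_sum fun g hg =>
            Nat.pow_le_pow_right (by norm_num) (Finset.mem_filter.1 hg).2
      _ ≤ _ := Finset.sum_le_sum_of_subset (Finset.subset_univ _)
  have h2 : 9 ^ u * (Fintype.card Ω + B.card) ^ (2 * u) ≤ 16 ^ u * Fintype.card Ω ^ (2 * u) := by
    have h3 : (3 * (Fintype.card Ω + B.card)) ^ (2 * u) ≤ (4 * Fintype.card Ω) ^ (2 * u) :=
      Nat.pow_le_pow_left (by omega) _
    rw [mul_pow, mul_pow, pow_mul 3, pow_mul 4] at h3
    exact h3
  have h3 : 2 ^ u * (9 ^ u * F.card) ≤ 2 ^ u * (8 ^ u * Fintype.card Ω ^ (2 * u)) := by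
    calc 2 ^ u * (9 ^ u * F.card) = 9 ^ u * (2 ^ u * F.card) := by ring
      _ ≤ 9 ^ u * (Fintype.card Ω + B.card) ^ (2 * u) := Nat.mul_le_mul_left _ h1
      _ ≤ 16 ^ u * Fintype.card Ω ^ (2 * u) := h2
      _ = 2 ^ u * (8 ^ u * Fintype.card Ω ^ (2 * u)) := by
          rw [← mul_assoc, ← mul_pow]
          norm_num
  exact Nat.le_of_mul_le_mul_left h3 (by positivity)

/-- a tuple which is good for all inputs -/
theorem exists_tuple {n u : ℕ} (hu : u = 6 * (n + 1)) {Ω : Type*} [Fintype Ω] [Nonempty Ω]
    [DecidableEq Ω] (B : (Fin n → Bool) → Finset Ω) (hB : ∀ x, 3 * (B x).card ≤ Fintype.card Ω) :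
    ∃ g : Fin (2 * u) → Ω, ∀ x, (univ.filter (fun i => g i ∈ B x)).card < u := by
  by_contra hcon
  push Not at hcon
  have h1 : (Finset.univ : Finset (Fin (2 * u) → Ω)) ⊆
      univ.biUnion (fun x => univ.filter (fun g : Fin (2 * u) → Ω =>
        u ≤ (univ.filter (fun i => g i ∈ B x)).card)) := by
    intro g _
    obtain ⟨x, h⟩ := hcon g
    exact Finset.mem_biUnion.2 ⟨x, Finset.mem_univ _, Finset.mem_filter.2 ⟨Finset.mem_univ _, h⟩⟩
  have h2 := (Finset.card_le_card h1).trans Finset.card_biUnion_le
  have h3 : Fintype.card Ω ^ (2 * u) ≤ ∑ x : Fin n → Bool, (univ.filter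
      (fun g : Fin (2 * u) → Ω => u ≤ (univ.filter (fun i => g i ∈ B x)).card)).card := by
    simpa using h2
  have h4 : 9 ^ u * Fintype.card Ω ^ (2 * u) ≤ 2 ^ n * (8 ^ u * Fintype.card Ω ^ (2 * u)) := by
    calc 9 ^ u * Fintype.card Ω ^ (2 * u)
        ≤ 9 ^ u * ∑ x : Fin n → Bool, (univ.filter
      (fun g : Fin (2 * u) → Ω => u ≤ (univ.filter (fun i => g i ∈ B x)).card)).card :=
          Nat.mul_le_mul_left _ h3
      _ = ∑ x : Fin n → Bool, 9 ^ u * (univ.filter
      (fun g : Fin (2 * u) → Ω => u ≤ (univ.filter (fun i => g i ∈ B x)).card)).card :=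
          Finset.mul_sum _ _ _
      _ ≤ ∑ _x : Fin n → Bool, 8 ^ u * Fintype.card Ω ^ (2 * u) :=
          Finset.sum_le_sum fun x _ => few (B x) u (hB x)
      _ = 2 ^ n * (8 ^ u * Fintype.card Ω ^ (2 * u)) := by simp
  have h5 : 0 < Fintype.card Ω ^ (2 * u) := pow_pos Fintype.card_pos _
  rw [← mul_assoc] at h4
  have h6 := Nat.le_of_mul_le_mul_right h4 h5
  have h7 : 2 ^ (n + 1) * 8 ^ u ≤ 9 ^ u := by
    rw [hu, pow_mul, pow_mul, ← mul_pow]
    exact Nat.pow_le_pow_left (by norm_num) _
  have h8 : 2 ^ (n + 1) * 8 ^ u ≤ 2 ^ n * 8 ^ u := h7.trans h6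
  have h9 := Nat.le_of_mul_le_mul_right h8 (by positivity)
  rw [pow_succ] at h9
  have h10 : 0 < 2 ^ n := by positivity
  omega

theorem card_range {K : ℕ} (P : ℕ → Prop) [DecidablePred P] :
    ((range K).filter P).card = (univ.filter (fun i : Fin K => P i)).card := by
  have : (range K).filter P = (univ.filter (fun i : Fin K => P i)).map Fin.valEmbedding := by
    ext i
    simp only [Finset.mem_filter, Finset.mem_range, Finset.mem_map, Finset.mem_univ, true_and,
      Fin.valEmbedding_apply]
    constructor
    · rintro ⟨h1, h2⟩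
      exact ⟨⟨i, h1⟩, h2, rfl⟩
    · rintro ⟨j, h1, rfl⟩
      exact ⟨j.2, h1⟩
  rw [this, Finset.card_map]

theorem length_filter (K : ℕ) (f : ℕ → Bool) :
    (((List.range K).map f).filter (fun b => b)).length =
      ((range K).filter (fun i => f i = true)).card := by
  induction K with
  | zero => rfl
  | succ K ih =>
    rw [List.range_succ, List.map_append, List.filter_append, List.length_append, ih,
      Finset.range_add_one, Finset.filter_insert]
    by_cases h : f K = true
    · rw [if_pos h, Finset.card_insert_of_notMem (by simp)]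
      simp [h]
    · rw [if_neg h]
      simp [h]

open Classical in
/-- the good lists of random strings -/
theorem exists_list {V : List Bool → List Bool} {m n u : ℕ} (hu : u = 6 * (n + 1))
    {L : Set (List Bool)}
    (h1 : ∀ x : List Bool, x.length = n → x ∈ L → 2 / 3 ≤ exPr V m x)
    (h2 : ∀ x : List Bool, x.length = n → x ∉ L → exPr V m x ≤ 1 / 3) :
    ∃ l : List (List Bool), l.length = 2 * u ∧ (∀ w ∈ l, w.length = m) ∧
      ∀ x : List Bool, x.length = n → (x ∈ L ↔ u ≤
        ((range (2 * u)).filter (fun i => ∃ y : List Bool, y.length ≤ m ∧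
          V (pairBits (l[i]?.getD []) (pairBits y x)) = [true])).card) := by
  set G : (Fin n → Bool) → Finset (Fin m → Bool) := fun x =>
    Finset.univ.filter (fun w => ∃ y : List Bool, y.length ≤ m ∧
      V (pairBits (List.ofFn w) (pairBits y (List.ofFn x))) = [true]) with hG
  set B : (Fin n → Bool) → Finset (Fin m → Bool) := fun x =>
    if List.ofFn x ∈ L then (G x)ᶜ else G x with hBd
  have hcard : Fintype.card (Fin m → Bool) = 2 ^ m := by simp
  have hacc : ∀ x : Fin n → Bool, exPr V m (List.ofFn x) = ((G x).card : ℝ) / 2 ^ m := by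
    intro x
    unfold exPr
    rw [Nat.card_eq_fintype_card, Fintype.card_subtype]
  have hB : ∀ x, 3 * (B x).card ≤ Fintype.card (Fin m → Bool) := by
    intro x
    rw [hcard]
    by_cases hx : List.ofFn x ∈ L
    · have e1 : B x = (G x)ᶜ := by rw [hBd]; simp only [hx, if_true]
      have e2 := h1 (List.ofFn x) (by simp) hx
      rw [hacc, le_div_iff₀ (by positivity)] at e2
      have e3 : 2 * 2 ^ m ≤ 3 * (G x).card := by
        have : (2 : ℝ) * 2 ^ m ≤ 3 * (G x).card := by linarith
        exact_mod_cast this
      have e4 := Finset.card_compl_add_card (G x)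
      rw [hcard] at e4
      rw [e1]
      omega
    · have e1 : B x = G x := by rw [hBd]; simp only [hx, if_false]
      have e2 := h2 (List.ofFn x) (by simp) hx
      rw [hacc, div_le_iff₀ (by positivity)] at e2
      have e3 : 3 * (G x).card ≤ 2 ^ m := by
        have : (3 : ℝ) * (G x).card ≤ 2 ^ m := by linarith
        exact_mod_cast this
      rw [e1]
      exact e3
  obtain ⟨g, hg⟩ := exists_tuple hu B hB
  refine ⟨List.ofFn (fun i => List.ofFn (g i)), by simp, ?_, ?_⟩
  · intro w hw
    obtain ⟨i, rfl⟩ := (List.mem_ofFn' _ _).1 hw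
    simp
  · intro x hx
    subst hx
    have e1 : List.ofFn (fun i : Fin x.length => x[i]) = x := List.ofFn_getElem
    obtain ⟨x', hx'⟩ : ∃ x' : Fin x.length → Bool, List.ofFn x' = x := ⟨_, e1⟩
    rw [card_range]
    have e2 : (univ.filter (fun i : Fin (2 * u) => ∃ y : List Bool,
        y.length ≤ m ∧ V (pairBits ((List.ofFn (fun i => List.ofFn (g i)))[(i : ℕ)]?.getD [])
          (pairBits y x)) = [true])) = univ.filter (fun i => g i ∈ G x') := by
      ext i
      simp only [Finset.mem_filter, Finset.mem_univ, true_and, hG, hx']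
      have e3 : (List.ofFn (fun i => List.ofFn (g i)))[(i : ℕ)]?.getD [] = List.ofFn (g i) := by
        rw [List.getElem?_eq_getElem (by simp)]
        simp
      rw [e3]
    rw [e2]
    have e3 := hg x'
    have e4 := Finset.card_filter_add_card_filter_not
      (s := (Finset.univ : Finset (Fin (2 * u)))) (fun i => g i ∈ G x')
    rw [Finset.card_univ, Fintype.card_fin] at e4
    by_cases hx : x ∈ L
    · have e5 : B x' = (G x')ᶜ := by rw [hBd]; simp only [hx', hx, if_true]
      rw [e5] at e3
      simp only [Finset.mem_compl] at e3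
      simp only [hx, true_iff]
      omega
    · have e5 : B x' = G x' := by rw [hBd]; simp only [hx', hx, if_false]
      rw [e5] at e3
      simp only [hx, false_iff, not_le]
      exact e3

/-- the witnesses -/
def lw (z : List Bool) : List (List Bool) := (unbits (List (List Bool)) (unpair z).1).getD []

/-- the samples -/
def ll (z : List Bool) : List (List Bool) := R6.lst (unpair z).2

/-- the input -/
def xx (z : List Bool) : List Bool := (unpair (unpair z).2).1

theorem lw_pair (l : List (List Bool)) (y : List Bool) : lw (pairBits (bits l) y) = l := by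
  unfold lw
  rw [unpair_pairBits, unbits_bits]
  rfl

theorem ll_pair (w x : List Bool) (l : List (List Bool)) :
    ll (pairBits w (pairBits x (bits l))) = l := by
  unfold ll
  rw [unpair_pairBits, R6.lst_pair]

theorem xx_pair (w x y : List Bool) : xx (pairBits w (pairBits x y)) = x := by
  unfold xx
  rw [unpair_pairBits, unpair_pairBits]

theorem poly_lw : Poly lw := by
  have h1 : Poly (fun y => unbits (List (List Bool)) (unpair y).1) :=
    poly_unbits.comp (Poly.fst poly_unpair)
  refine (Poly.optCases (g := fun _ => ([] : List (List Bool))) (h := fun _ w => w) h1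
    (NPC.Poly.const []) (Poly.snd Poly.id)).congr fun y => ?_
  unfold lw
  cases unbits (List (List Bool)) (unpair y).1 <;> rfl

theorem poly_ll : Poly ll := R6.poly_lst.comp (Poly.snd poly_unpair)

theorem poly_xx : Poly xx := Poly.fst (poly_unpair.comp (Poly.snd poly_unpair))

theorem poly_getD {α : Type} [TEnc α] {f : α → List (List Bool)} {n : α → ℕ} (hf : Poly f)
    (hn : Poly n) : Poly (fun a => (f a)[n a]?.getD []) := by
  refine (Poly.optCases (g := fun _ => ([] : List Bool)) (h := fun _ w => w)
    (Poly.getElem? hf hn) (NPC.Poly.const []) (Poly.snd Poly.id)).congr fun q => ?_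
  cases (f q)[n q]? <;> rfl

/-- the input of the verifier -/
def inpV (q : (ℕ × List Bool) × List Bool) : List Bool :=
  pairBits ((ll q.1.2)[q.1.1]?.getD [])
    (pairBits (((lw q.1.2)[q.1.1]?.getD []).take ((ll q.1.2)[q.1.1]?.getD []).length)
      (xx q.1.2))

theorem poly_inpV : Poly inpV := by
  have h1 : Poly (fun q : (ℕ × List Bool) × List Bool => ll q.1.2) :=
    poly_ll.comp (Poly.snd (Poly.fst Poly.id))
  have h2 : Poly (fun q : (ℕ × List Bool) × List Bool => (ll q.1.2)[q.1.1]?.getD []) :=
    poly_getD h1 (Poly.fst (Poly.fst Poly.id))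
  have h3 : Poly (fun q : (ℕ × List Bool) × List Bool => lw q.1.2) :=
    poly_lw.comp (Poly.snd (Poly.fst Poly.id))
  have h4 : Poly (fun q : (ℕ × List Bool) × List Bool => (lw q.1.2)[q.1.1]?.getD []) :=
    poly_getD h3 (Poly.fst (Poly.fst Poly.id))
  exact poly_pairBits h2 (poly_pairBits (R1.poly_take h4 (UPoly.length h2))
    (poly_xx.comp (Poly.snd (Poly.fst Poly.id))))

/-- the evaluation of the votes -/
def evV (q : List Bool × List Bool) : List Bool :=
  [decide (6 * ((xx q.1).length + 1) ≤
    ((q.2.take (ll q.1).length).filter (fun b => b)).length)]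

theorem poly_evV : Poly evV :=
  Poly.cons (Poly.decide_le (Poly.mul (NPC.Poly.const 6) (Poly.succ (Poly.length
      (poly_xx.comp (Poly.fst Poly.id)))))
    (Poly.length (Poly.filter (p := fun _ (b : Bool) => b)
      (R1.poly_take (Poly.snd Poly.id) (UPoly.length (poly_ll.comp (Poly.fst Poly.id))))
      (Poly.snd Poly.id))))
    (NPC.Poly.const [])

end C1

open C1 in
/-- `AM` has nondeterministic circuits -/
theorem t_amadv : St_amadv := by
  classical
  rintro A L ⟨V, p, hV, hL⟩
  have hex : ∀ n : ℕ, ∃ l : List (List Bool), l.length = 2 * (6 * (n + 1)) ∧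
      (∀ w ∈ l, w.length = p.eval n) ∧
      ∀ x : List Bool, x.length = n → (x ∈ L ↔ 6 * (n + 1) ≤
        ((range (2 * (6 * (n + 1)))).filter (fun i => ∃ y : List Bool, y.length ≤ p.eval n ∧
          V (pairBits (l[i]?.getD []) (pairBits y x)) = [true])).card) := by
    intro n
    refine exists_list rfl (fun x hx hxL => ?_) (fun x hx hxL => ?_)
    · have := (hL x).1 hxL
      rwa [hx] at this
    · have := (hL x).2 hxL
      rwa [hx] at this
  choose l hl1 hl2 hl3 using hex
  set T : Polynomial ℕ := Polynomial.C 12 * (Polynomial.X + Polynomial.C 1) with hT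
  set F : List Bool → List Bool := fun z => evV (z, (List.range (T.eval z.length)).map
      (fun i => decide (V (inpV ((i, z), (([] : List (List Bool))).map A)) = [true]))) with hF
  have hFP : IsFP A F := IsFP.votes hV T (Q := fun _ => []) (NPC.Poly.const []) poly_inpV poly_evV
  set P : Polynomial ℕ := Polynomial.C 12 * (Polynomial.X + Polynomial.C 1) *
    (Polynomial.C 4 * p + Polynomial.C 3) + Polynomial.C 1 with hP
  -- the length of a list of short strings
  have hbits : ∀ (n N : ℕ) (l : List (List Bool)), l.length = 2 * (6 * (n + 1)) →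
      (∀ w ∈ l, w.length ≤ p.eval n) → n ≤ N → (bits l).length ≤ P.eval N := by
    intro n N l h1 h2 hN
    rw [bits_length]
    have h3 := sz_le_length_mul l (4 * p.eval n + 1) (fun w hw => by
      have h4 := sz_listBool_le w
      have h5 := h2 w hw
      omega)
    rw [h1] at h3
    have h6 : P.eval n ≤ P.eval N := eval_mono P hN
    refine le_trans ?_ h6
    simp only [hP, Polynomial.eval_add, Polynomial.eval_mul, Polynomial.eval_C, Polynomial.eval_X]
    nlinarith [h3]
  refine ⟨{y | ∃ w : List Bool, w.length ≤ P.eval y.length ∧ F (pairBits w y) = [true]},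
    fun n => bits (l n), P, ⟨F, P, hFP, fun y => Iff.rfl⟩, fun n => ?_, fun x => ?_⟩
  · exact hbits n n (l n) (hl1 n) (fun w hw => (hl2 n w hw).le) le_rfl
  · have hlen : ∀ w : List Bool, x.length ≤ (pairBits w (pairBits x (bits (l x.length)))).length := by
      intro w
      rw [A2.length_pairBits, A2.length_pairBits]
      omega
    have hlen2 : x.length ≤ (pairBits x (bits (l x.length))).length := by
      rw [A2.length_pairBits]
      omega
    have key : ∀ w : List Bool, F (pairBits w (pairBits x (bits (l x.length)))) = [true] ↔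
        6 * (x.length + 1) ≤ ((range (2 * (6 * (x.length + 1)))).filter (fun i =>
          V (pairBits ((l x.length)[i]?.getD []) (pairBits
            (((lw (pairBits w (pairBits x (bits (l x.length)))))[i]?.getD []).take
              ((l x.length)[i]?.getD []).length) x)) = [true])).card := by
      intro w
      have h1 : 2 * (6 * (x.length + 1)) ≤
          T.eval (pairBits w (pairBits x (bits (l x.length)))).length := by
        simp only [hT, Polynomial.eval_add, Polynomial.eval_mul, Polynomial.eval_C,
          Polynomial.eval_X]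
        have := hlen w
        omega
      rw [hF]
      simp only [evV, xx_pair, ll_pair, hl1, List.cons.injEq, and_true, decide_eq_true_eq,
        ← List.map_take, List.take_range, min_eq_left h1]
      rw [length_filter]
      simp only [inpV, ll_pair, xx_pair, decide_eq_true_eq]
    rw [Set.mem_ofPred_eq, hl3 x.length x rfl]
    constructor
    · intro hx
      -- the witnesses
      have hy : ∀ i : ℕ, ∃ y : List Bool, y.length ≤ p.eval x.length ∧
          ((∃ y : List Bool, y.length ≤ p.eval x.length ∧
            V (pairBits ((l x.length)[i]?.getD []) (pairBits y x)) = [true]) →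
            V (pairBits ((l x.length)[i]?.getD []) (pairBits y x)) = [true]) := by
        intro i
        by_cases h : ∃ y : List Bool, y.length ≤ p.eval x.length ∧
            V (pairBits ((l x.length)[i]?.getD []) (pairBits y x)) = [true]
        · obtain ⟨y, h1, h2⟩ := h
          exact ⟨y, h1, fun _ => h2⟩
        · exact ⟨[], by simp, fun h' => absurd h' h⟩
      choose y hy1 hy2 using hy
      refine ⟨bits ((List.range (2 * (6 * (x.length + 1)))).map y), ?_, ?_⟩
      · refine hbits x.length _ _ (by rw [List.length_map, List.length_range]) ?_ hlen2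
        intro w hw
        obtain ⟨i, -, rfl⟩ := List.mem_map.1 hw
        exact hy1 i
      · rw [key]
        refine hx.trans (Finset.card_le_card ?_)
        intro i hi
        rw [Finset.mem_filter] at hi ⊢
        refine ⟨hi.1, ?_⟩
        have hi1 := Finset.mem_range.1 hi.1
        have h1 : ((lw (pairBits (bits ((List.range (2 * (6 * (x.length + 1)))).map y))
            (pairBits x (bits (l x.length)))))[i]?.getD []) = y i := by
          rw [lw_pair, List.getElem?_map, List.getElem?_range hi1]
          rfl
        have h2 : ((l x.length)[i]?.getD []).length = p.eval x.length := by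
          have h3 : i < (l x.length).length := by rw [hl1]; exact hi1
          rw [List.getElem?_eq_getElem h3, Option.getD_some]
          exact hl2 _ _ (List.getElem_mem h3)
        rw [h1, h2, List.take_of_length_le (hy1 i)]
        exact hy2 i hi.2
    · rintro ⟨w, -, hw⟩
      rw [key] at hw
      refine hw.trans (Finset.card_le_card ?_)
      intro i hi
      rw [Finset.mem_filter] at hi ⊢
      refine ⟨hi.1, _, ?_, hi.2⟩
      have hi1 := Finset.mem_range.1 hi.1
      have h2 : ((l x.length)[i]?.getD []).length = p.eval x.length := by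
        have h3 : i < (l x.length).length := by rw [hl1]; exact hi1
        rw [List.getElem?_eq_getElem h3, Option.getD_some]
        exact hl2 _ _ (List.getElem_mem h3)
      rw [h2]
      exact List.length_take_le _ _

end Pool.Agent.H752.GM
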